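import Mathlib

namespace Pool.Agent.Results.MP_8301b4_gt.NotCCC

open Set Filter Topology Ordinal Cardinal

/-- `X` is Eberlein-Grothendieck: it embeds into `C(K, ℝ)` with the topology of pointwise
convergence, for some compact Hausdorff `K`. -/
def EberleinGrothendieck (X : Type) [TopologicalSpace X] : Prop :=
  ∃ (K : Type) (_ : TopologicalSpace K), CompactSpace K ∧ T2Space K ∧
    ∃ φ : X → C(K, ℝ), IsEmbedding (fun x (k : K) => φ x k)

/-- Every open cover has a point-countable open refinement. -/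
def MetaLindelof (Y : Type) [TopologicalSpace Y] : Prop :=
  ∀ 𝒰 : Set (Set Y), (∀ U ∈ 𝒰, IsOpen U) → ⋃₀ 𝒰 = Set.univ →
    ∃ 𝒱 : Set (Set Y), (∀ V ∈ 𝒱, IsOpen V) ∧ ⋃₀ 𝒱 = Set.univ ∧ (∀ V ∈ 𝒱, ∃ U ∈ 𝒰, V ⊆ U) ∧
      ∀ y, {V ∈ 𝒱 | y ∈ V}.Countable

/-- Cantor-Bendixson derivatives: `X^(α+1)` is the set of non-isolated points of `X^(α)`. -/
noncomputable def cb (X : Type) [TopologicalSpace X] (α : Ordinal.{0}) : Set X :=
  Ordinal.limitRecOn α Set.univ (fun _ S => {x ∈ S | x ∈ closure (S \ {x})})
    (fun α _ ih => ⋂ β : Ordinal.{0}, ⋂ h : β < α, ih β h)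

/-- The scattering level `α`. -/
def level (X : Type) [TopologicalSpace X] (α : Ordinal.{0}) : Set X := cb X α \ cb X (α + 1)

/-- Scattered space whose height is `α`: the least ordinal with empty derivative is `α`. -/
def HasHeight (X : Type) [TopologicalSpace X] (α : Ordinal.{0}) : Prop :=
  cb X α = ∅ ∧ ∀ β < α, (cb X β).Nonempty

/-- `V_x`: the union of all members of `𝒱` that contain `x`. -/
def star {X : Type} (𝒱 : Set (Set X)) (x : X) : Set X := ⋃₀ {V ∈ 𝒱 | x ∈ V}

/-- The poset `P`: finite sets `p` with `V_x ∩ p = {x}` for every `x ∈ p`. -/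
def Cond {X : Type} (𝒱 : Set (Set X)) (p : Finset X) : Prop :=
  ∀ x ∈ p, star 𝒱 x ∩ (p : Set X) = {x}

/-- The poset `P`, ordered by reverse inclusion, has the countable chain condition. -/
def CCC {X : Type} (𝒱 : Set (Set X)) : Prop :=
  ∀ A : Set (Finset X), (∀ p ∈ A, Cond 𝒱 p) →
    (∀ p ∈ A, ∀ q ∈ A, p ≠ q → ¬ ∃ r, Cond 𝒱 r ∧ p ⊆ r ∧ q ⊆ r) → A.Countable

/-! ### Families of finite sets -/

section families

variable {X I : Type} (y : X → Set I)

open Classical in
/-- the indicator embedding -/
noncomputable def ind (x : X) (i : I) : ℝ := if i ∈ y x then 1 else 0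

/-- the pointwise topology -/
@[reducible] noncomputable def top : TopologicalSpace X := TopologicalSpace.induced (ind y) inferInstance

lemma isOpen_mem (i : I) : @IsOpen X (top y) {x | i ∈ y x} := by
  let _ := top y
  have hind : IsInducing (fun x : X => ind y x) := ⟨rfl⟩
  have hc : Continuous (fun x => ind y x i) :=
    (continuous_apply i).comp hind.continuous
  have : {x | i ∈ y x} = (fun x => ind y x i) ⁻¹' (Ioi (1/2)) := by
    ext x
    simp only [Set.mem_ofPred_eq, mem_preimage, mem_Ioi, ind]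
    split_ifs with h
    · simp [h]; norm_num
    · simp [h]
  rw [this]
  exact isOpen_Ioi.preimage hc

lemma isOpen_notMem (i : I) : @IsOpen X (top y) {x | i ∉ y x} := by
  let _ := top y
  have hind : IsInducing (fun x : X => ind y x) := ⟨rfl⟩
  have hc : Continuous (fun x => ind y x i) :=
    (continuous_apply i).comp hind.continuous
  have : {x | i ∉ y x} = (fun x => ind y x i) ⁻¹' (Iio (1/2)) := by
    ext x
    simp only [Set.mem_ofPred_eq, mem_preimage, mem_Iio, ind]
    split_ifs with h
    · simp [h]; norm_num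
    · simp [h]
  rw [this]
  exact isOpen_Iio.preimage hc

lemma isOpen_agree (x : X) (i : I) : @IsOpen X (top y) {z | i ∈ y z ↔ i ∈ y x} := by
  by_cases h : i ∈ y x
  · simpa [h] using isOpen_mem y i
  · simpa [h] using isOpen_notMem y i

lemma exists_finset {W : Set X} (hW : @IsOpen X (top y) W) {x : X} (hx : x ∈ W) :
    ∃ F : Finset I, ∀ z, (∀ i ∈ F, (i ∈ y z ↔ i ∈ y x)) → z ∈ W := by
  obtain ⟨O, hO, rfl⟩ := hW
  obtain ⟨F, u, hu, hsub⟩ := isOpen_pi_iff.1 hO (ind y x) hx
  refine ⟨F, fun z hz => hsub ?_⟩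
  intro i hi
  have : ind y z i = ind y x i := by
    unfold ind
    by_cases h : i ∈ y x
    · rw [if_pos h, if_pos ((hz i hi).2 h)]
    · rw [if_neg h, if_neg (fun h' => h ((hz i hi).1 h'))]
  rw [this]
  exact (hu i hi).2

lemma metaLindelof (hy : Function.Injective y) (hfin : ∀ x, (y x).Finite) (S : Set X) :
    @MetaLindelof S (@instTopologicalSpaceSubtype X (· ∈ S) (top y)) := by
  let _ := top y
  intro 𝒰 hU hcov
  have h1 : ∀ x : S, ∃ U ∈ 𝒰, x ∈ U := by
    intro x
    have : x ∈ ⋃₀ 𝒰 := by rw [hcov]; trivial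
    exact this
  choose U hU1 hU2 using h1
  have h2 : ∀ x : S, ∃ F : Finset I, ∀ z : S,
      (∀ i ∈ F, (i ∈ y z.1 ↔ i ∈ y x.1)) → z ∈ U x := by
    intro x
    obtain ⟨O, hO, hOU⟩ := hU _ (hU1 x)
    have hxO : x.1 ∈ O := by
      have := hU2 x
      rw [← hOU] at this
      exact this
    obtain ⟨F, hF⟩ := exists_finset y hO hxO
    refine ⟨F, fun z hz => ?_⟩
    rw [← hOU]
    exact hF z.1 hz
  choose F hF using h2
  set O : S → Set S := fun x => {z | (∀ i ∈ (hfin x.1).toFinset, i ∈ y z.1) ∧
    ∀ i ∈ F x, (i ∈ y z.1 ↔ i ∈ y x.1)} with hO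
  refine ⟨range O, ?_, ?_, ?_, ?_⟩
  · rintro _ ⟨x, rfl⟩
    have e : O x = Subtype.val ⁻¹' ((⋂ i ∈ (hfin x.1).toFinset, {z | i ∈ y z}) ∩
        ⋂ i ∈ F x, {z | i ∈ y z ↔ i ∈ y x.1}) := by
      ext z
      simp [hO]
    rw [e]
    refine IsOpen.preimage continuous_subtype_val (IsOpen.inter ?_ ?_)
    · exact isOpen_biInter_finset (fun i _ => isOpen_mem y i)
    · exact isOpen_biInter_finset (fun i _ => isOpen_agree y _ i)
  · refine eq_univ_of_forall (fun x => ⟨O x, ⟨x, rfl⟩, ?_, ?_⟩)
    · intro i hi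
      exact (hfin x.1).mem_toFinset.1 hi
    · intro i _
      exact Iff.rfl
  · rintro _ ⟨x, rfl⟩
    exact ⟨U x, hU1 x, fun z hz => hF x z hz.2⟩
  · intro z
    have hsub : {V ∈ range O | z ∈ V} ⊆ O '' {x : S | y x.1 ⊆ y z.1} := by
      rintro _ ⟨⟨x, rfl⟩, hz⟩
      refine ⟨x, ?_, rfl⟩
      intro i hi
      exact hz.1 i ((hfin x.1).mem_toFinset.2 hi)
    have hfinite : {x : S | y x.1 ⊆ y z.1}.Finite := by
      have h3 : (𝒫 (y z.1)).Finite := (hfin z.1).finite_subsets
      refine Set.Finite.of_finite_image (f := fun x : S => y x.1) (h3.subset ?_) ?_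
      · rintro _ ⟨x, hx, rfl⟩
        exact hx
      · intro a _ b _ hab
        exact Subtype.ext (hy hab)
    exact (hfinite.image O).countable.mono hsub

lemma eberleinGrothendieck (hy : Function.Injective y) (hfin : ∀ x, (y x).Finite) :
    @EberleinGrothendieck X (top y) := by
  let _ := top y
  let _ : TopologicalSpace I := ⊥
  have : DiscreteTopology I := ⟨rfl⟩
  have ht : ∀ x, Tendsto (ind y x) cofinite (𝓝 0) := by
    intro x
    refine tendsto_const_nhds.congr' ?_
    have : ∀ᶠ i in cofinite, i ∉ y x := (hfin x).eventually_cofinite_notMem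
    filter_upwards [this] with i hi
    unfold ind
    rw [if_neg hi]
  refine ⟨OnePoint I, inferInstance, inferInstance, inferInstance,
    fun x => OnePoint.continuousMapMkDiscrete (ind y x) 0 (ht x), ?_⟩
  have hind : IsInducing (fun x : X => ind y x) := ⟨rfl⟩
  have hcont : ∀ i, Continuous (fun x => ind y x i) := fun i =>
    (continuous_apply i).comp hind.continuous
  refine ⟨?_, ?_⟩
  · refine IsInducing.of_comp (g := fun (f : OnePoint I → ℝ) (i : I) => f (i : OnePoint I)) ?_ ?_ ?_
    · refine continuous_pi (fun k => ?_)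
      induction k using OnePoint.rec with
      | infty => exact continuous_const
      | coe i => exact hcont i
    · exact continuous_pi (fun i => continuous_apply _)
    · exact hind
  · intro a b hab
    apply hy
    ext i
    have h1 : ind y a i = ind y b i := congrFun hab (i : OnePoint I)
    unfold ind at h1
    by_cases h2 : i ∈ y a <;> by_cases h3 : i ∈ y b <;> simp_all

end families

/-! ### The space -/

/-- the set of countable ordinals -/
abbrev Om : Type := (ω₁ : Ordinal.{0}).ToType

/-- finite nonempty sequences of pairs with strictly decreasing first coordinates (the newest pair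
comes first) -/
def Sp : Type := {l : List (Om × Om) // l ≠ [] ∧ l.Pairwise (fun p q => p.1 < q.1)}

/-- the set of nonempty initial segments (as suffixes of the list) -/
def ys (x : Sp) : Set Sp := {z | z.1 <:+ x.1}

noncomputable instance : TopologicalSpace Sp := top ys

lemma ys_finite (x : Sp) : (ys x).Finite := by
  have h1 : {l | l ∈ x.1.tails}.Finite := List.finite_toSet _
  refine Set.Finite.of_finite_image (f := fun z : Sp => z.1) (h1.subset ?_) ?_
  · rintro _ ⟨z, hz, rfl⟩
    exact (List.mem_tails _ _).2 hz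
  · intro a _ b _ hab
    exact Subtype.ext hab

lemma self_mem (x : Sp) : x ∈ ys x := List.suffix_refl _

lemma ys_injective : Function.Injective ys := by
  intro a b hab
  have h1 : a ∈ ys b := by rw [← hab]; exact self_mem a
  have h2 : b ∈ ys a := by rw [hab]; exact self_mem b
  exact Subtype.ext (h1.eq_of_length_le h2.length_le)

/-- rank of a node: the last ordinal of the sequence -/
noncomputable def rk (x : Sp) : Ordinal.{0} := ((x.1.head x.2.1).1.toOrd : Ordinal.{0})

lemma rk_lt (x : Sp) : rk x < ω₁ := (x.1.head x.2.1).1.toOrd.2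

lemma rk_lt_of_suffix {x z : Sp} (h : x ∈ ys z) (hne : z ≠ x) : rk z < rk x := by
  obtain ⟨t, ht⟩ := h
  have ht0 : t ≠ [] := by
    rintro rfl
    exact hne (Subtype.ext ht.symm)
  have h1 := z.2.2
  rw [← ht, List.pairwise_append] at h1
  have h2 := h1.2.2 (t.head ht0) (List.head_mem _) (x.1.head x.2.1) (List.head_mem _)
  have h3 : z.1.head z.2.1 = t.head ht0 := by
    simp only [← ht]
    rw [List.head_append_of_ne_nil ht0]
  unfold rk
  rw [h3]
  exact (ToType.mk.symm.lt_iff_lt).2 h2

/-- basic open sets -/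
def U (x : Sp) : Set Sp := {z | x ∈ ys z}

lemma isOpen_U (x : Sp) : IsOpen (U x) := isOpen_mem ys x

/-- the child of `x` with label `(b, c)` -/
def child (x : Sp) (b c : Om) (hb : b < (x.1.head x.2.1).1) : Sp :=
  ⟨(b, c) :: x.1, by simp, by
    rw [List.pairwise_cons]
    refine ⟨?_, x.2.2⟩
    intro q hq
    rcases x with ⟨l, hl, hp⟩
    cases l with
    | nil => exact absurd rfl hl
    | cons p l =>
      simp only [List.head_cons] at hb
      rcases List.mem_cons.1 hq with rfl | hq
      · exact hb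
      · exact hb.trans ((List.pairwise_cons.1 hp).1 q hq)⟩

lemma mem_closure_of_lt {x : Sp} {α : Ordinal.{0}} (h : α < rk x) :
    x ∈ closure ({z | α ≤ rk z} \ {x}) := by
  rw [mem_closure_iff]
  intro W hW hxW
  obtain ⟨F, hF⟩ := exists_finset ys hW hxW
  have hα : α < ω₁ := h.trans (rk_lt x)
  set b : Om := ToType.mk ⟨α, hα⟩ with hb
  have hbo : (b.toOrd : Ordinal.{0}) = α := by
    rw [hb]
    show ((ToType.mk.symm (ToType.mk ⟨α, hα⟩) : Set.Iio (ω₁ : Ordinal.{0})) : Ordinal.{0}) = α
    rw [OrderIso.symm_apply_apply]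
  have hbx : b < (x.1.head x.2.1).1 := by
    rw [← ToType.mk.symm.lt_iff_lt]
    show (b.toOrd : Ordinal.{0}) < rk x
    rw [hbo]; exact h
  have hinj : Function.Injective (fun c => child x b c hbx) := by
    intro c d hcd
    have := congrArg Subtype.val hcd
    simp only [child, List.cons.injEq, Prod.mk.injEq] at this
    exact this.1.2
  have : Infinite Om := by
    rw [← Cardinal.aleph0_le_mk_iff]
    simp
  obtain ⟨c, hc⟩ : ∃ c : Om, child x b c hbx ∉ (F : Set Sp) := by
    by_contra hcon
    push Not at hcon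
    have h2 : (range (fun c => child x b c hbx)).Infinite := Set.infinite_range_of_injective hinj
    exact h2 (F.finite_toSet.subset (by rintro _ ⟨c, rfl⟩; exact hcon c))
  have hne : child x b c hbx ≠ x := by
    intro hh
    have := congrArg (fun z : Sp => z.1.length) hh
    simp [child] at this
  refine ⟨child x b c hbx, hF _ ?_, ?_, hne⟩
  · intro i hi
    constructor
    · intro hi'
      rcases List.suffix_cons_iff.1 hi' with h3 | h3
      · exfalso
        apply hc
        have : i = child x b c hbx := Subtype.ext h3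
        rw [← this]; exact hi
      · exact h3
    · intro hi'
      exact List.suffix_cons_iff.2 (Or.inr hi')
  · show α ≤ rk (child x b c hbx)
    have : rk (child x b c hbx) = (b.toOrd : Ordinal.{0}) := rfl
    rw [this, hbo]

lemma cb_eq (α : Ordinal.{0}) : cb Sp α = {x | α ≤ rk x} := by
  induction α using Ordinal.limitRecOn with
  | zero =>
    unfold cb
    rw [Ordinal.limitRecOn_zero]
    ext x; simp
  | add_one α ih =>
    have h1 : cb Sp (α + 1) = {x ∈ cb Sp α | x ∈ closure (cb Sp α \ {x})} := by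
      unfold cb
      rw [Ordinal.limitRecOn_add_one]
    rw [h1, ih]
    ext x
    constructor
    · rintro ⟨hx, hcl⟩
      show α + 1 ≤ rk x
      by_contra hcon
      have hle : rk x ≤ α := by
        rw [not_le] at hcon
        exact Order.lt_add_one_iff.1 hcon
      rw [mem_closure_iff] at hcl
      obtain ⟨z, hz1, hz2, hz3⟩ := hcl (U x) (isOpen_U x) (self_mem x)
      have h4 := rk_lt_of_suffix hz1 hz3
      have h5 : α ≤ rk z := hz2
      exact absurd (h5.trans_lt h4) (not_lt.2 hle)
    · intro hx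
      have hx' : α < rk x := Order.add_one_le_iff.1 hx
      exact ⟨hx'.le, mem_closure_of_lt hx'⟩
  | limit α hα ih =>
    have h1 : cb Sp α = ⋂ β : Ordinal.{0}, ⋂ _ : β < α, cb Sp β := by
      unfold cb
      rw [Ordinal.limitRecOn_limit _ _ _ _ hα]
    rw [h1]
    ext x
    simp only [mem_iInter, Set.mem_ofPred_eq]
    constructor
    · intro h
      by_contra hcon
      push Not at hcon
      have h2 : rk x + 1 < α := hα.add_one_lt hcon
      have h3 := h _ h2
      rw [ih _ h2] at h3
      exact absurd (Order.lt_add_one_iff.2 le_rfl : rk x < rk x + 1) (not_lt.2 h3)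
    · intro h β hβ
      rw [ih _ hβ]
      exact hβ.le.trans h

lemma level_eq (α : Ordinal.{0}) : level Sp α = {x | rk x = α} := by
  unfold level
  rw [cb_eq, cb_eq]
  ext x
  simp only [Set.mem_sdiff, Set.mem_ofPred_eq, not_le, Order.lt_add_one_iff]
  exact ⟨fun h => le_antisymm h.2 h.1, fun h => ⟨h.ge, h.le⟩⟩

/-- sequences of length one -/
def single (p : Om × Om) : Sp := ⟨[p], by simp, by simp⟩

lemma hasHeight : HasHeight Sp ω₁ := by
  constructor
  · rw [cb_eq]
    ext x
    simp only [Set.mem_ofPred_eq, mem_empty_iff_false, iff_false, not_le]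
    exact rk_lt x
  · intro β hβ
    rw [cb_eq]
    refine ⟨single (ToType.mk ⟨β, hβ⟩, ToType.mk ⟨β, hβ⟩), ?_⟩
    show β ≤ ((ToType.mk.symm (ToType.mk ⟨β, hβ⟩) : Set.Iio (ω₁ : Ordinal.{0})) : Ordinal.{0})
    rw [OrderIso.symm_apply_apply]

lemma mk_Om : #Om = ℵ₁ := by simp

lemma single_injective : Function.Injective single := by
  intro p q h
  have := congrArg Subtype.val h
  simpa [single] using this

lemma mk_Sp : #Sp = ℵ₁ := by
  have hprod : #(Om × Om) = ℵ₁ := by
    rw [Cardinal.mk_prod, Cardinal.lift_id, mk_Om]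
    exact Cardinal.mul_eq_self (Cardinal.aleph0_le_aleph 1)
  have : Infinite (Om × Om) := by
    rw [← Cardinal.aleph0_le_mk_iff, hprod]
    exact Cardinal.aleph0_le_aleph 1
  apply le_antisymm
  · calc #Sp ≤ #(List (Om × Om)) := Cardinal.mk_subtype_le _
      _ = ℵ₁ := by rw [Cardinal.mk_list_eq_mk, hprod]
  · rw [← hprod]
    exact Cardinal.mk_le_of_injective single_injective

/-- the cover by the sets above sequences of length one -/
def 𝒱₀ : Set (Set Sp) := range (fun p => U (single p))

lemma exists_single (x : Sp) : ∃ p, x ∈ U (single p) := by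
  refine ⟨x.1.getLast x.2.1, x.1.dropLast, ?_⟩
  exact List.dropLast_append_getLast x.2.1

lemma single_unique {x : Sp} {p q : Om × Om} (hp : x ∈ U (single p)) (hq : x ∈ U (single q)) :
    p = q := by
  obtain ⟨s, hs⟩ := hp
  obtain ⟨t, ht⟩ := hq
  have h1 : s ++ [p] = t ++ [q] := hs.trans ht.symm
  have := List.append_inj' h1 rfl
  simpa using this.2

/-- There is a Tychonoff, Eberlein-Grothendieck, hereditarily meta-Lindelof, scattered space of height
and cardinality `ω₁`, with open sets `U x` meeting the level of `x` only in `x` and a point-countable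
open refinement `𝒱` of `{U x}` that covers the space, for which the poset `P` is not ccc. -/
theorem result : ∃ (X : Type) (_ : TopologicalSpace X),
    T35Space X ∧ EberleinGrothendieck X ∧ (∀ S : Set X, MetaLindelof S) ∧
    HasHeight X ω₁ ∧ #X = ℵ₁ ∧
    ∃ U : X → Set X, (∀ x, IsOpen (U x)) ∧
      (∀ α, ∀ x ∈ level X α, U x ∩ level X α = {x}) ∧
      ∃ 𝒱 : Set (Set X), (∀ V ∈ 𝒱, IsOpen V) ∧ ⋃₀ 𝒱 = Set.univ ∧ (∀ V ∈ 𝒱, ∃ x, V ⊆ U x) ∧
        (∀ x, {V ∈ 𝒱 | x ∈ V}.Countable) ∧ ¬ CCC 𝒱 := by
  have hEG : EberleinGrothendieck Sp := eberleinGrothendieck ys ys_injective ys_finite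
  refine ⟨Sp, inferInstance, ?_, hEG, metaLindelof ys ys_injective ys_finite, hasHeight, mk_Sp,
    U, isOpen_U, ?_, 𝒱₀, ?_, ?_, ?_, ?_, ?_⟩
  · obtain ⟨K, _, _, _, φ, hφ⟩ := hEG
    exact hφ.t35Space
  · intro α x hx
    rw [level_eq] at hx ⊢
    ext z
    constructor
    · rintro ⟨h1, h2⟩
      by_contra hne
      have := rk_lt_of_suffix h1 hne
      have h3 : rk z = α := h2
      have h4 : rk x = α := hx
      rw [h3, h4] at this
      exact lt_irrefl _ this
    · rintro rfl
      exact ⟨self_mem _, hx⟩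
  · rintro _ ⟨p, rfl⟩
    exact isOpen_U _
  · refine eq_univ_of_forall (fun x => ?_)
    obtain ⟨p, hp⟩ := exists_single x
    exact ⟨_, ⟨p, rfl⟩, hp⟩
  · rintro _ ⟨p, rfl⟩
    exact ⟨single p, Subset.rfl⟩
  · intro x
    obtain ⟨p, hp⟩ := exists_single x
    refine (countable_singleton (U (single p))).mono ?_
    rintro _ ⟨⟨q, rfl⟩, hq⟩
    rw [mem_singleton_iff, single_unique hp hq]
  · intro hccc
    -- two countable ordinals
    have : Infinite Om := by
      rw [← Cardinal.aleph0_le_mk_iff]
      simp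
    obtain ⟨b₀, b₁, hb⟩ := exists_pair_lt Om
    set s : Sp := single (b₁, b₀) with hs
    have hbs : b₀ < (s.1.head s.2.1).1 := hb
    set t : Om → Sp := fun c => child s b₀ c hbs with ht
    have htinj : Function.Injective t := by
      intro c d hcd
      have := congrArg Subtype.val hcd
      simp only [ht, child, List.cons.injEq, Prod.mk.injEq] at this
      exact this.1.2
    have htU : ∀ c, t c ∈ U s := fun c => List.suffix_cons _ _
    have hstar : ∀ c d, t d ∈ star 𝒱₀ (t c) := fun c d =>
      ⟨U s, ⟨⟨_, rfl⟩, htU c⟩, htU d⟩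
    have hctb := hccc (range (fun c => ({t c} : Finset Sp))) ?_ ?_
    · have h1 : (Set.univ : Set Om).Countable := by
        have h2 : Function.Injective (fun c => ({t c} : Finset Sp)) := by
          intro c d hcd
          exact htinj (Finset.singleton_injective hcd)
        have h3 := Set.countable_of_injective_of_countable_image (s := (Set.univ : Set Om))
          h2.injOn (by rwa [image_univ])
        exact h3
      have h4 : #Om ≤ ℵ₀ := by
        rw [← Cardinal.mk_univ]
        exact Cardinal.mk_le_aleph0_iff.2 h1.to_subtype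
      rw [mk_Om] at h4
      exact absurd Cardinal.aleph0_lt_aleph_one (not_lt.2 h4)
    · rintro _ ⟨c, rfl⟩ x hx
      rw [Finset.mem_singleton] at hx
      subst hx
      ext z
      simp only [Finset.coe_singleton, mem_inter_iff, mem_singleton_iff, and_iff_right_iff_imp]
      rintro rfl
      exact hstar c c
    · rintro _ ⟨c, rfl⟩ _ ⟨d, rfl⟩ hne ⟨r, hr, hc, hd⟩
      have h1 : t c ∈ r := hc (Finset.mem_singleton_self _)
      have h2 : t d ∈ r := hd (Finset.mem_singleton_self _)
      have h3 : t d ∈ star 𝒱₀ (t c) ∩ (r : Set Sp) := ⟨hstar c d, h2⟩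
      rw [hr _ h1] at h3
      apply hne
      rw [mem_singleton_iff] at h3
      simp only [h3]

end Pool.Agent.Results.MP_8301b4_gt.NotCCC
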